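import Mathlib
import Pool.Agent.Q122.JT.Comb
import Pool.Agent.Q122.JT.Lin
import Pool.Agent.Q122.JT.Main

/-! # MP_728180_al: no Jordan type strictly dominates the contiguous partition -/

set_option autoImplicit false

namespace Pool.Agent.Results.MP_728180_al.NoStrictDominance

open Pool.Agent.Q122.JT IsLocalRing

universe u v

/-- Let `A` be a local algebra of finite dimension over a field `k` (for example a local Artinian
Gorenstein quotient of a power series ring over `k`), let `H` be its Hilbert function and let `l`
be an element of the maximal ideal (for example a linear form), with Jordan type `P`. Then `P`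
does not strictly dominate the contiguous partition of `H`. -/
theorem result (k : Type u) (A : Type v) [Field k] [CommRing A] [IsLocalRing A] [Algebra k A]
    [FiniteDimensional k A] (l : A) (hl : l ∈ maximalIdeal A) (P : Multiset ℕ)
    (hP : IsJordanType (mulEnd k l) P) (N : ℕ) (h0 : ∀ i, N ≤ i → hilb k A i = 0)
    (hN : ∀ i, hilb k A i ≤ N) :
    ¬ (Dom P (Pc (hilb k A) N) ∧ P ≠ Pc (hilb k A) N) :=
  fun h => h.2 (main hl hP h0 hN h.1).2

end Pool.Agent.Results.MP_728180_al.NoStrictDominance
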